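import Pool.Agent.helper50.PHN.Spec
import Mathlib.Order.Filter.Ultrafilter.Basic

set_option autoImplicit false

namespace Pool.Agent.PHN

open Finset

theorem CPT (hFIN : FIN_stmt) : CPT_stmt := by
  intro W hW
  obtain ⟨N, hN⟩ := hFIN W hW
  refine ⟨N, fun r b => ?_⟩
  choose x hx1 hx2 using hN r b
  have key : ∀ i : ℕ, ∃ c : ℤ, ∀ᶠ M in (Filter.hyperfilter ℕ : Filter ℕ), (i.factorial : ℤ) ∣ x M - c := by
    intro i
    have hi : (0 : ℤ) < (i.factorial : ℤ) := by exact_mod_cast i.factorial_pos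
    have h1 : ∀ᶠ M in (Filter.hyperfilter ℕ : Filter ℕ),
        ∃ c ∈ Set.Ico (0 : ℤ) (i.factorial : ℤ), (i.factorial : ℤ) ∣ x M - c :=
      Filter.Eventually.of_forall fun M =>
        ⟨x M % (i.factorial : ℤ), ⟨Int.emod_nonneg _ hi.ne', Int.emod_lt_of_pos _ hi⟩, Int.dvd_self_sub_emod⟩
    obtain ⟨c, _, hc⟩ := (Ultrafilter.eventually_exists_mem_iff (Set.finite_Ico _ _)).1 h1
    exact ⟨c, hc⟩
  choose a ha using key
  refine ⟨a, ?_, ?_, ?_⟩
  · intro i j hij
    obtain ⟨M, h1, h2⟩ := ((ha i).and (ha j)).exists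
    have h3 : (i.factorial : ℤ) ∣ (j.factorial : ℤ) := by exact_mod_cast Nat.factorial_dvd_factorial hij
    have h4 := dvd_sub h1 (h3.trans h2)
    have h5 : x M - a i - (x M - a j) = a j - a i := by ring
    rwa [h5] at h4
  · intro j hj
    obtain ⟨M, h1⟩ := (ha j).exists
    have h3 : (W : ℤ) ∣ (j.factorial : ℤ) := by exact_mod_cast Nat.dvd_factorial hW hj
    have h4 := dvd_sub (hx1 M) (h3.trans h1)
    have h5 : x M - b - (x M - a j) = a j - b := by ring
    rwa [h5] at h4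
  · intro n j hn hnj hd
    have hcof : ∀ᶠ M in (Filter.hyperfilter ℕ : Filter ℕ), n ≤ M := by
      have h6 : ∀ᶠ M in (Filter.atTop : Filter ℕ), n ≤ M := Filter.eventually_ge_atTop n
      rw [← Nat.cofinite_eq_atTop] at h6
      exact Filter.hyperfilter_le_cofinite h6
    obtain ⟨M, h1, h2⟩ := ((ha j).and hcof).exists
    have hn0 : 0 < n := by omega
    have h3 : (n.totient : ℤ) ∣ (j.factorial : ℤ) := by
      exact_mod_cast Nat.dvd_factorial (Nat.totient_pos.2 hn0) ((Nat.totient_le n).trans hnj)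
    apply hx2 M n (Finset.mem_Ioc.2 ⟨hn, h2⟩)
    have h4 := dvd_add hd (h3.trans h1)
    have h5 : r n + a j + (x M - a j) = r n + x M := by ring
    rwa [h5] at h4

end Pool.Agent.PHN
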